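import Pool.Agent.KS6_22.BA.Fin2

/-!
# Fixed points in the Galois groups of the iterates of `x ^ 2 - 1`: the exact rate of decay

`f = X ^ 2 - 1`. For `a` in a field `k` let `δ a m` be the proportion of the elements of the Galois
group of `f ^ m - a` over `k` (`m`-th iterate) which fix at least one root. We prove

* over the rationals and for `a = 1`: `δ a m = 2 / m + O(log m / m ^ 2)`, with an explicit constant;
* for every field `k` of characteristic zero and every `a` such that none of `a`, `1 + a`,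
  `a * (1 + a)` is a square in the field generated by the roots of unity of `2`-power order:
  `1 / (m / 2 + log m + 7) ≤ δ a m ≤ 2 / m`.

Outline. Above a good vertex `v` (see the library) let `a_n` be the conditional probability that an
element fixing `v` and lying in a given coset of the geometric stabilizer of `v` fixes a vertex
`n` levels above. The fixed points above the two children `u`, `-u` are conditionally independent
given the class modulo the kernel of the Kummer symbol of `u` (`gen`, `decomp`); in each such class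
the probability is at most `a_{n-1}` (`bound_child`). This gives
`a_{n+1} (1 - a_n / 2) ≤ a_{n+2} ≤ a_{n+1} - a_n a_{n+1} + a_n ^ 2 / 2` (`aa_rc`), and hence
`1 / a_n = n / 2 + O(log n)`. Above `1` the four vertices of level two have trees which are pairwise
almost independent; for opposite vertices this needs the independence of the Kummer symbols at the
vertices of level three (`Dat.signs_indep`).
-/

set_option autoImplicit false

namespace Pool.Agent.Results.MP_0936a9_nt.ExactDecay

open Polynomial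
open Pool.Agent.KS6_22.BA

/-- the iterates of `f = X ^ 2 - 1` as polynomials -/
noncomputable def iter (k : Type*) [Field k] : ℕ → k[X]
  | 0 => X
  | m + 1 => (iter k m).comp (X ^ 2 - 1)

/-- the elements of the Galois group of `f ^ m - a` which fix at least one root -/
def fixing {k : Type*} [Field k] (a : k) (m : ℕ) : Set (iter k m - C a).Gal :=
  {σ | ∃ β ∈ (iter k m - C a).rootSet (iter k m - C a).SplittingField, σ β = β}

/-- the proportion of these elements -/
noncomputable def δ {k : Type*} [Field k] (a : k) (m : ℕ) : ℝ :=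
  (Nat.card (fixing a m) : ℝ) / (Nat.card (iter k m - C a).Gal : ℝ)

/-- the field generated over `k` by all roots of unity of `2`-power order -/
noncomputable def cyc (k : Type*) [Field k] : IntermediateField k (AlgebraicClosure k) :=
  IntermediateField.adjoin k {ζ | ∃ j : ℕ, ζ ^ 2 ^ j = 1}

/-- none of `a`, `1 + a`, `a * (1 + a)` is a square in this field -/
def Generic {k : Type*} [Field k] (a : k) : Prop :=
  ¬ IsSquare (algebraMap k (cyc k) a) ∧ ¬ IsSquare (algebraMap k (cyc k) (1 + a)) ∧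
    ¬ IsSquare (algebraMap k (cyc k) (a * (1 + a)))

section roots

variable {k : Type*} [Field k] [CharZero k]

lemma aeval_iter {K : Type*} [Field K] [Algebra k K] (m : ℕ) (x : K) :
    aeval x (iter k m) = Q280.Basilica.f^[m] x := by
  induction m generalizing x with
  | zero => simp [iter]
  | succ m ih =>
    rw [iter, aeval_comp, Function.iterate_succ_apply, ← ih]
    congr 1
    simp [Q280.Basilica.f]

lemma ne_zero (a : k) (m : ℕ) : iter k m - C a ≠ 0 := by
  intro h
  obtain ⟨x, hx⟩ := Q280.Basilica.exists_iter (Ω := AlgebraicClosure k) m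
    (algebraMap k (AlgebraicClosure k) (a + 1))
  have h1 := congrArg (aeval x) h
  rw [map_sub, aeval_iter, hx, aeval_C, map_zero, map_add, map_one] at h1
  have h2 : (1 : AlgebraicClosure k) = 0 := by linear_combination h1
  exact one_ne_zero h2

lemma mem_root {K : Type*} [Field K] [Algebra k K] (a : k) (m : ℕ) (x : K) :
    x ∈ (iter k m - C a).rootSet K ↔ Q280.Basilica.f^[m] x = algebraMap k K a := by
  rw [mem_rootSet, and_iff_right (ne_zero a m), map_sub, aeval_iter, aeval_C, sub_eq_zero]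

end roots

section general

open Q280.Basilica

variable {k K Ω : Type*} [Field k] [CharZero k] [Field K] [Algebra k K] [Field Ω] [Algebra k Ω]
  [IsAlgClosed Ω] [Normal k Ω]

lemma ratio_general (a : k) (m : ℕ) [IsSplittingField k K (iter k m - C a)] (jj : K →ₐ[k] Ω)
    (l h : ℝ)
    (H : ∀ [Algebra K Ω] [IsScalarTower k K Ω] [Normal k K] [Fintype (Aut k K)],
      Cont K (algebraMap k Ω a) m →
      ((FA k K (algebraMap k Ω a) m).card : ℝ) ≤ h * Fintype.card (Aut k K) ∧
      l * Fintype.card (Aut k K) ≤ ((FA k K (algebraMap k Ω a) m).card : ℝ)) :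
    l ≤ (Nat.card {σ : K ≃ₐ[k] K // ∃ β, f^[m] β = algebraMap k K a ∧ σ β = β} : ℝ) /
      (Nat.card (K ≃ₐ[k] K) : ℝ) ∧
    (Nat.card {σ : K ≃ₐ[k] K // ∃ β, f^[m] β = algebraMap k K a ∧ σ β = β} : ℝ) /
      (Nat.card (K ≃ₐ[k] K) : ℝ) ≤ h := by
  classical
  let alg : Algebra K Ω := jj.toRingHom.toAlgebra
  have tow : IsScalarTower k K Ω := IsScalarTower.of_algebraMap_eq fun x => (jj.commutes x).symm
  have nor : Normal k K := Normal.of_isSplittingField (iter k m - C a)
  have fd : FiniteDimensional k K := IsSplittingField.finiteDimensional K (iter k m - C a)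
  have hK : Cont K (algebraMap k Ω a) m := by
    intro x hx
    have h1 : x ∈ (iter k m - C a).rootSet Ω := (mem_root a m x).mpr hx
    have h2 := (IsSplittingField.splits K (iter k m - C a)).image_rootSet jj
    rw [← h2] at h1
    obtain ⟨y, -, hy⟩ := h1
    exact ⟨y, hy⟩
  have fin : Fintype (Aut k K) := Fintype.ofFinite _
  obtain ⟨H1, H2⟩ := H hK
  have inj : Function.Injective (algebraMap K Ω) := (algebraMap K Ω).injective
  have hit : ∀ (d : ℕ) (w : K), algebraMap K Ω (f^[d] w) = f^[d] (algebraMap K Ω w) := by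
    intro d
    induction d with
    | zero => intro w; rfl
    | succ d ih =>
      intro w
      rw [Function.iterate_succ_apply', Function.iterate_succ_apply', ← ih]
      unfold f; simp
  have e1 : Nat.card {σ : K ≃ₐ[k] K // ∃ β, f^[m] β = algebraMap k K a ∧ σ β = β} =
      (FA k K (algebraMap k Ω a) m).card := by
    refine Nat.subtype_card _ fun b => ?_
    obtain ⟨σ, rfl⟩ := res_surj (Ω := Ω) b
    rw [mem_FA hK]
    constructor
    · rintro ⟨y, hy, hy'⟩
      obtain ⟨β, rfl⟩ := hK y hy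
      refine ⟨β, inj ?_, inj ?_⟩
      · rw [hit, hy, ← IsScalarTower.algebraMap_apply]
      · rw [res_comm, hy']
    · rintro ⟨β, hβ, hβ'⟩
      refine ⟨algebraMap K Ω β, ?_, ?_⟩
      · rw [← hit, hβ, ← IsScalarTower.algebraMap_apply]
      · rw [← res_comm, hβ']
  have e2 : Nat.card (K ≃ₐ[k] K) = Fintype.card (Aut k K) := by
    rw [← Nat.card_eq_fintype_card]
  rw [e1, e2]
  have hpos : (0 : ℝ) < Fintype.card (Aut k K) := by exact_mod_cast Fintype.card_pos
  rw [le_div_iff₀ hpos, div_le_iff₀ hpos]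
  exact ⟨H2, H1⟩

end general

section good

open Q280.Basilica

variable {k : Type*} [Field k] [CharZero k]

/-- a number fixed by all automorphisms over the cyclotomic field lies in this field -/
lemma exists_mover {z : AlgebraicClosure k} {b : k} (hz : z ^ 2 = algebraMap k _ b)
    (hb : ¬ IsSquare (algebraMap k (cyc k) b)) :
    ∃ σ ∈ Γ k (AlgebraicClosure k), σ z = -z := by
  by_contra hcon
  push Not at hcon
  have hgal : IsGalois (cyc k) (AlgebraicClosure k) := inferInstance
  have hfix : ∀ σ : AlgebraicClosure k ≃ₐ[cyc k] AlgebraicClosure k, σ z = z := by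
    intro σ
    have h1 : (σ z - z) * (σ z + z) = 0 := by
      have h2 : (σ z) ^ 2 = z ^ 2 := by
        rw [← map_pow, hz, IsScalarTower.algebraMap_apply k (cyc k) (AlgebraicClosure k)]
        exact σ.commutes _
      linear_combination h2
    rcases mul_eq_zero.mp h1 with h | h
    · linear_combination h
    · exfalso
      refine hcon (σ.restrictScalars k) ?_ (by
        change σ z = -z
        linear_combination h)
      intro j ζ hζ
      have h3 : ζ ∈ cyc k := IntermediateField.subset_adjoin k _ ⟨j, hζ⟩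
      exact σ.commutes ⟨ζ, h3⟩
  have hbot := (InfiniteGalois.mem_bot_iff_fixed (k := cyc k) (K := AlgebraicClosure k) z).mpr hfix
  rw [IntermediateField.mem_bot] at hbot
  obtain ⟨w, hw⟩ := hbot
  apply hb
  refine ⟨w, ?_⟩
  apply (algebraMap (cyc k) (AlgebraicClosure k)).injective
  rw [← IsScalarTower.algebraMap_apply, map_mul, hw, ← hz]
  ring

lemma good_of_generic {a : k} (h : Generic a) : Good k (algebraMap k (AlgebraicClosure k) a) := by
  obtain ⟨h1, h2, h3⟩ := h
  obtain ⟨u, hu⟩ := IsAlgClosed.exists_pow_nat_eq (algebraMap k (AlgebraicClosure k) a)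
    (n := 2) (by norm_num)
  obtain ⟨v, hv⟩ := IsAlgClosed.exists_pow_nat_eq (algebraMap k (AlgebraicClosure k) (1 + a))
    (n := 2) (by norm_num)
  have hv' : v ^ 2 = 1 + algebraMap k (AlgebraicClosure k) a := by rw [hv, map_add, map_one]
  have huv : (u * v) ^ 2 = algebraMap k (AlgebraicClosure k) (a * (1 + a)) := by
    rw [mul_pow, hu, hv, map_mul]
  obtain ⟨σ₁, g1, s1⟩ := exists_mover hu h1
  obtain ⟨σ₂, g2, s2⟩ := exists_mover hv h2
  obtain ⟨σ₃, g3, s3⟩ := exists_mover huv h3
  have ha0 : algebraMap k (AlgebraicClosure k) a ≠ 0 := by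
    intro h
    apply h1
    rw [map_eq_zero] at h
    rw [h, map_zero]
    exact IsSquare.zero
  have ha1 : 1 + algebraMap k (AlgebraicClosure k) a ≠ 0 := by
    intro h
    apply h2
    rw [← hv', hv, map_eq_zero] at h
    rw [h, map_zero]
    exact IsSquare.zero
  have hu0 : u ≠ 0 := by
    rintro rfl
    apply ha0
    rw [← hu]
    norm_num
  have hv0 : v ≠ 0 := by
    rintro rfl
    apply ha1
    rw [← hv']
    norm_num
  have cu : ∀ σ : Aut k (AlgebraicClosure k), σ u = u ∨ σ u = -u := by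
    intro σ
    have h4 : (σ u - u) * (σ u + u) = 0 := by
      have : (σ u) ^ 2 = u ^ 2 := by rw [← map_pow, hu, AlgEquiv.commutes]
      linear_combination this
    rcases mul_eq_zero.mp h4 with h | h
    · left; linear_combination h
    · right; linear_combination h
  have cv : ∀ σ : Aut k (AlgebraicClosure k), σ v = v ∨ σ v = -v := by
    intro σ
    have h4 : (σ v - v) * (σ v + v) = 0 := by
      have : (σ v) ^ 2 = v ^ 2 := by rw [← map_pow, hv, AlgEquiv.commutes]
      linear_combination this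
    rcases mul_eq_zero.mp h4 with h | h
    · left; linear_combination h
    · right; linear_combination h
  have c3 : (σ₃ u = -u ∧ σ₃ v = v) ∨ (σ₃ u = u ∧ σ₃ v = -v) := by
    rw [map_mul] at s3
    rcases cu σ₃ with h | h <;> rcases cv σ₃ with h' | h'
    · exfalso
      rw [h, h'] at s3
      have h4 : u * v ≠ 0 := mul_ne_zero hu0 hv0
      exact neg_ne h4 s3.symm
    · exact Or.inr ⟨h, h'⟩
    · exact Or.inl ⟨h, h'⟩
    · exfalso
      rw [h, h', neg_mul_neg] at s3
      have h4 : u * v ≠ 0 := mul_ne_zero hu0 hv0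
      exact neg_ne h4 s3.symm
  have A : ∃ σ ∈ Γ k (AlgebraicClosure k), σ u = -u ∧ σ v = v := by
    rcases c3 with h | h
    · exact ⟨σ₃, g3, h⟩
    · rcases cv σ₁ with h' | h'
      · exact ⟨σ₁, g1, s1, h'⟩
      · refine ⟨σ₁ * σ₃, (Γ k _).mul_mem g1 g3, ?_, ?_⟩
        · rw [AlgEquiv.mul_apply, h.1, s1]
        · rw [AlgEquiv.mul_apply, h.2, map_neg, h', neg_neg]
  have B : ∃ σ ∈ Γ k (AlgebraicClosure k), σ u = u ∧ σ v = -v := by
    rcases c3 with h | h
    · rcases cu σ₂ with h' | h'
      · exact ⟨σ₂, g2, h', s2⟩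
      · refine ⟨σ₂ * σ₃, (Γ k _).mul_mem g2 g3, ?_, ?_⟩
        · rw [AlgEquiv.mul_apply, h.1, map_neg, h', neg_neg]
        · rw [AlgEquiv.mul_apply, h.2, s2]
    · exact ⟨σ₃, g3, h⟩
  obtain ⟨σ, hσ, σ1, σ2⟩ := A
  obtain ⟨τ, hτ, τ1, τ2⟩ := B
  refine ⟨⟨σ, ⟨hσ, AlgEquiv.commutes _ _⟩, ?_, ?_⟩, ⟨τ, ⟨hτ, AlgEquiv.commutes _ _⟩, ?_, ?_⟩⟩
  · exact κ1_neg_one hσ ha0 hu σ1
  · exact κ1_one hσ ha1 hv' σ2
  · exact κ1_one hτ ha0 hu τ1
  · exact κ1_neg_one hτ ha1 hv' τ2

end good

section final

open Q280.Basilica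

lemma fixing_eq {k : Type*} [Field k] [CharZero k] (a : k) (m : ℕ) :
    fixing a m = {σ : (iter k m - C a).Gal | ∃ β, f^[m] β =
      algebraMap k (iter k m - C a).SplittingField a ∧ σ β = β} := by
  unfold fixing
  simp only [mem_root]

/-- the proportion lies between zero and one -/
lemma δ_mem {k : Type*} [Field k] (a : k) (m : ℕ) : 0 ≤ δ a m ∧ δ a m ≤ 1 := by
  unfold δ
  constructor
  · positivity
  · have h1 : (Nat.card (fixing a m) : ℝ) ≤ (Nat.card (iter k m - C a).Gal : ℝ) := by
      exact_mod_cast Nat.card_le_card_of_injective _ Subtype.val_injective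
    exact div_le_one_of_le₀ h1 (Nat.cast_nonneg _)

lemma TT_base {k K Ω : Type*} [Field k] [Field K] [Field Ω] [Algebra k K] [Algebra k Ω]
    [Algebra K Ω] [IsScalarTower k K Ω] [Normal k K] [Normal k Ω] [IsAlgClosed Ω]
    [Fintype (Aut k K)] [CharZero Ω] (a : k) :
    (TT k K (algebraMap k Ω a) (algebraMap k Ω a)).card = Fintype.card (Aut k K) := by
  classical
  rw [← Finset.card_univ]
  congr 1
  rw [Finset.eq_univ_iff_forall]
  intro b
  obtain ⟨σ, rfl⟩ := res_surj (Ω := Ω) b
  unfold TT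
  rw [Finset.mem_filter]
  exact ⟨Finset.mem_univ _, σ, rfl, AlgEquiv.commutes _ _⟩

lemma one_general {K Ω : Type*} [Field K] [Algebra ℚ K] [Field Ω] [Algebra ℚ Ω] [IsAlgClosed Ω]
    [Algebra.IsAlgebraic ℚ Ω] [CharZero Ω] {n : ℕ} (hn : 1 ≤ n)
    [IsSplittingField ℚ K (iter ℚ (n + 3) - C 1)] (jj : K →ₐ[ℚ] Ω) :
    lo (n + 1) - 48 / (n : ℝ) ^ 2 ≤
      (Nat.card {σ : K ≃ₐ[ℚ] K // ∃ β, f^[n + 3] β = algebraMap ℚ K 1 ∧ σ β = β} : ℝ) /
        (Nat.card (K ≃ₐ[ℚ] K) : ℝ) ∧
    (Nat.card {σ : K ≃ₐ[ℚ] K // ∃ β, f^[n + 3] β = algebraMap ℚ K 1 ∧ σ β = β} : ℝ) /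
      (Nat.card (K ≃ₐ[ℚ] K) : ℝ) ≤ 2 / ((n + 1 : ℕ) : ℝ) := by
  have hcl : IsAlgClosure ℚ Ω := ⟨inferInstance, inferInstance⟩
  have hnor : Normal ℚ Ω := IsAlgClosure.normal ℚ Ω
  refine ratio_general (Ω := Ω) 1 (n + 3) jj _ _ ?_
  intro i1 i2 i3 i4 hc
  obtain ⟨D⟩ := exists_dat Ω
  have e : algebraMap ℚ Ω 1 = 1 := map_one _
  rw [e] at hc ⊢
  exact D.total hn hc

/-- the bounds over the rationals for the base point one -/
theorem bounds_one {n : ℕ} (hn : 1 ≤ n) :
    lo (n + 1) - 48 / (n : ℝ) ^ 2 ≤ δ (1 : ℚ) (n + 3) ∧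
      δ (1 : ℚ) (n + 3) ≤ 2 / ((n + 1 : ℕ) : ℝ) := by
  have h := @one_general (iter ℚ (n + 3) - C 1).SplittingField (AlgebraicClosure ℚ) _
    (SplittingField.instAlgebra_1 (iter ℚ (n + 3) - C 1)) _ (AlgebraicClosure.instAlgebra ℚ) _ _ _
    n hn _ (IsSplittingField.lift _ (iter ℚ (n + 3) - C 1) (IsAlgClosed.splits _))
  unfold δ
  rw [fixing_eq]
  exact h

/-- the final estimate -/
lemma numeric {M d l : ℝ} (hM : 4 ≤ M) (hl : l ≤ Real.log M)
    (h1 : 1 / ((M - 2) / 2 + l + 7) - 48 / (M - 3) ^ 2 ≤ d) (h2 : d ≤ 2 / (M - 2))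
    (hl0 : 0 ≤ l) :
    |d - 2 / M| ≤ 600 * Real.log M / M ^ 2 := by
  have hM0 : 0 < M := by linarith
  have hL : 1.38 ≤ Real.log M := by
    have h3 : Real.log 4 ≤ Real.log M := Real.log_le_log (by norm_num) hM
    have h4 : Real.log 4 = 2 * Real.log 2 := by
      rw [show (4 : ℝ) = 2 ^ 2 by norm_num, Real.log_pow]
      norm_num
    have := Real.log_two_gt_d9
    linarith
  set L := Real.log M with hLdef
  rw [abs_le]
  constructor
  · have a1 : 1 / (M / 2 + L + 6) ≤ 1 / ((M - 2) / 2 + l + 7) := by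
      apply one_div_le_one_div_of_le (by linarith)
      linarith
    have a2 : 48 / (M - 3) ^ 2 ≤ 768 / M ^ 2 := by
      rw [div_le_div_iff₀ (by nlinarith) (by positivity)]
      nlinarith
    have a3 : 2 / M - 1 / (M / 2 + L + 6) ≤ (4 * L + 24) / M ^ 2 := by
      have e : 2 / M - 1 / (M / 2 + L + 6) = (2 * L + 12) / (M * (M / 2 + L + 6)) := by
        have : M / 2 + L + 6 ≠ 0 := by
          have : 0 < M / 2 + L + 6 := by linarith
          exact this.ne'
        set w := M / 2 + L + 6 with hw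
        have hM' : M = 2 * (w - L - 6) := by
          rw [hw]
          ring
        rw [div_sub_div _ _ hM0.ne' this]
        congr 1
        rw [hM']
        ring
      rw [e, div_le_div_iff₀ (by nlinarith) (by positivity)]
      nlinarith [mul_nonneg (by linarith : (0 : ℝ) ≤ 2 * L + 12)
        (mul_nonneg hM0.le (by linarith : (0 : ℝ) ≤ L + 6))]
    have a4 : (4 * L + 24) / M ^ 2 + 768 / M ^ 2 ≤ 600 * L / M ^ 2 := by
      rw [← add_div, div_le_div_iff_of_pos_right (by positivity)]
      linarith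
    linarith
  · have a1 : 2 / (M - 2) - 2 / M ≤ 600 * L / M ^ 2 := by
      rw [div_sub_div _ _ (by linarith) hM0.ne', div_le_div_iff₀ (by nlinarith) (by positivity)]
      nlinarith [mul_nonneg hM0.le (by linarith : (0 : ℝ) ≤ L - 1),
        mul_nonneg (mul_nonneg hM0.le hM0.le) (by linarith : (0 : ℝ) ≤ L - 1)]
    linarith

/-- the bounds for a generic base point -/
theorem generic_bounds {k : Type*} [Field k] [CharZero k] {a : k} (ha : Generic a) {m : ℕ}
    (hm : 1 ≤ m) : 1 / ((m : ℝ) / 2 + Real.log m + 7) ≤ δ a m ∧ δ a m ≤ 2 / m := by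
  have hn : Normal k (AlgebraicClosure k) := IsAlgClosure.normal k (AlgebraicClosure k)
  have h := @ratio_general k (iter k m - C a).SplittingField (AlgebraicClosure k) _ _ _
    (SplittingField.instAlgebra_1 (iter k m - C a)) _ (AlgebraicClosure.instAlgebra k) _ _ a m _
    (IsSplittingField.lift _ (iter k m - C a) (IsAlgClosed.splits _))
    (1 / ((m : ℝ) / 2 + Real.log m + 7)) (2 / m) ?_
  · unfold δ
    rw [fixing_eq]
    exact h
  · intro i1 i2 i3 i4 hc
    have h1 : ((FA k _ (algebraMap k (AlgebraicClosure k) a) m).card : ℝ) ≤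
        2 / m * (TT k (iter k m - C a).SplittingField (algebraMap k (AlgebraicClosure k) a)
          (algebraMap k (AlgebraicClosure k) a)).card ∧
        lo m * (TT k (iter k m - C a).SplittingField (algebraMap k (AlgebraicClosure k) a)
          (algebraMap k (AlgebraicClosure k) a)).card ≤
        ((FA k _ (algebraMap k (AlgebraicClosure k) a) m).card : ℝ) :=
      one_total (good_of_generic ha) hc hm
    rw [TT_base] at h1
    exact h1

/-- **Main result.** Over the rationals, for `a = 1`, the proportion is `2 / m + O(log m / m ^ 2)`;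
for every generic base point it lies between `1 / (m / 2 + log m + 7)` and `2 / m`. -/
theorem result :
    (∀ m : ℕ, 2 ≤ m → |δ (1 : ℚ) m - 2 / m| ≤ 600 * Real.log m / (m : ℝ) ^ 2) ∧
    ∀ (k : Type) [Field k] [CharZero k] (a : k), Generic a → ∀ m : ℕ, 1 ≤ m →
      1 / ((m : ℝ) / 2 + Real.log m + 7) ≤ δ a m ∧ δ a m ≤ 2 / m := by
  refine ⟨?_, fun k _ _ a ha m hm => generic_bounds ha hm⟩
  intro m hm
  rcases Nat.lt_or_ge m 4 with h4 | h4
  · -- the two small cases
    obtain ⟨h0, h1⟩ := δ_mem (1 : ℚ) m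
    have hl2 : (0.69 : ℝ) < Real.log 2 := by
      have := Real.log_two_gt_d9
      linarith
    have hl : Real.log 2 ≤ Real.log m := by
      apply Real.log_le_log (by norm_num)
      exact_mod_cast hm
    have hm2 : (2 : ℝ) ≤ m := by exact_mod_cast hm
    have hm3 : (m : ℝ) ≤ 3 := by exact_mod_cast (by omega : m ≤ 3)
    have h5 : (1 : ℝ) ≤ 600 * Real.log m / (m : ℝ) ^ 2 := by
      rw [le_div_iff₀ (by positivity)]
      nlinarith
    refine le_trans ?_ h5
    have h6 : (0 : ℝ) ≤ 2 / m := by positivity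
    have h7 : (2 : ℝ) / m ≤ 1 := by
      rw [div_le_one (by linarith)]
      exact hm2
    rw [abs_le]
    constructor <;> linarith
  · obtain ⟨n, rfl⟩ := Nat.exists_eq_add_of_le' (by omega : 3 ≤ m)
    obtain ⟨h1, h2⟩ := bounds_one (n := n) (by omega)
    have hM : (4 : ℝ) ≤ ((n + 3 : ℕ) : ℝ) := by exact_mod_cast h4
    have e1 : ((n + 1 : ℕ) : ℝ) = ((n + 3 : ℕ) : ℝ) - 2 := by
      push_cast
      ring
    have e2 : (n : ℝ) = ((n + 3 : ℕ) : ℝ) - 3 := by
      push_cast
      ring
    have hlog : Real.log ((n + 1 : ℕ) : ℝ) ≤ Real.log ((n + 3 : ℕ) : ℝ) := by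
      apply Real.log_le_log
      · exact_mod_cast Nat.succ_pos n
      · exact_mod_cast (by omega : n + 1 ≤ n + 3)
    unfold lo at h1
    rw [e1] at h1 h2 hlog
    rw [e2] at h1
    set M : ℝ := ((n + 3 : ℕ) : ℝ) with hMdef
    have hl0 : 0 ≤ Real.log (M - 2) := Real.log_nonneg (by linarith)
    exact numeric hM hlog h1 h2 hl0

end final

end Pool.Agent.Results.MP_0936a9_nt.ExactDecay
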